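import Pool.Agent.Helper82.Tau6

/-!
Q1 of MP_24a1d9_gt: `S₁(Ω,T)` is preserved under finite powers (in ZFC), while `S_fin(Ω,T)` is not
(under the continuum hypothesis, hence consistently).
-/

namespace Pool.Agent.Results.MP_24a1d9_gt.FinitePowersQOne

open TauPow

/-- Every finite power of a set of reals with `S₁(Ω,T)` has `S₁(Ω,T)`; under the continuum
hypothesis some set of reals has `S_fin(Ω,T)` while its square does not. -/
theorem result :
    (∀ X : Set ℝ, S1 (Omega X) (Tau X) →
      ∀ k : ℕ, 1 ≤ k → S1 (Omega (Fin k → X)) (Tau (Fin k → X))) ∧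
    (Cardinal.continuum.{0} = Cardinal.aleph.{0} 1 →
      ∃ X : Set ℝ, Sfin (Omega X) (Tau X) ∧
        ¬ Sfin (Omega (Fin 2 → X)) (Tau (Fin 2 → X))) :=
  ⟨fun X hX k _ => positive_part_tau X hX k, fun hCH => negative_part hCH⟩

end Pool.Agent.Results.MP_24a1d9_gt.FinitePowersQOne
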