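import Mathlib
import Pool.Agent.Helper73.TauDefs
import Pool.Agent.Helper73.TauMain

/-!
Problem MP_24a1d9_gt, Q2: none of the five properties is provably preserved under finite powers.
-/

set_option autoImplicit false

namespace Pool.Agent.Results.MP_24a1d9_gt.TauPropertiesNotPowerInvariant

open Pool.Agent.Helper73.Tau

/-- Assume the continuum hypothesis. There is a set of reals `X` which satisfies
`S_1(T, Γ)`, `S_1(T, T)`, `S_1(T, Ω)`, `S_fin(T, T)` and `S_fin(T, Ω)`, whereas its square `X × X`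
satisfies none of these five properties. -/
theorem result (CH : (Cardinal.aleph 1 : Cardinal.{0}) = Cardinal.continuum) :
    ∃ X : Set ℝ,
      (S1 (Tau X) (Gamma X) ∧ ¬ S1 (Tau (X × X)) (Gamma (X × X))) ∧
      (S1 (Tau X) (Tau X) ∧ ¬ S1 (Tau (X × X)) (Tau (X × X))) ∧
      (S1 (Tau X) (Omega X) ∧ ¬ S1 (Tau (X × X)) (Omega (X × X))) ∧
      (Sfin (Tau X) (Tau X) ∧ ¬ Sfin (Tau (X × X)) (Tau (X × X))) ∧
      (Sfin (Tau X) (Omega X) ∧ ¬ Sfin (Tau (X × X)) (Omega (X × X))) :=
  main_all CH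

end Pool.Agent.Results.MP_24a1d9_gt.TauPropertiesNotPowerInvariant
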